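import Pool.Agent.Q140.LPG.Main
import Pool.Agent.H560R2.Sum5
import Pool.Agent.H560R2.Mat7

/-!
# Real circuits with few arbitrary gates, for linear feasibility on average
-/

set_option autoImplicit false
set_option linter.unusedSectionVars false
set_option linter.unusedVariables false

namespace Pool.Agent.Q140.LPG

open Finset Pool.Agent.H560R2 Pool.Agent.TH655.ML Matrix

/-- A strict inequality as an inequality, for finitely many numbers. -/
theorem exists_theta (S : Finset ℝ) (τ : ℝ) : ∃ θ : ℝ, ∀ v ∈ S, θ ≤ -v ↔ v < τ := by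
  classical
  by_cases h : (S.filter (· < τ)).Nonempty
  · refine ⟨-(S.filter (· < τ)).max' h, fun v hv => ?_⟩
    rw [neg_le_neg_iff]
    constructor
    · intro h1
      have h2 := Finset.max'_mem _ h
      rw [Finset.mem_filter] at h2
      exact h1.trans_lt h2.2
    · intro h1
      exact Finset.le_max' _ _ (Finset.mem_filter.2 ⟨hv, h1⟩)
  · refine ⟨-(τ - 1), fun v hv => ?_⟩
    rw [neg_le_neg_iff]
    have h1 : ¬ v < τ := fun h1 => h ⟨v, Finset.mem_filter.2 ⟨hv, h1⟩⟩
    constructor
    · intro h2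
      linarith
    · intro h2
      exact absurd h2 h1

section block
variable {n : ℕ}

open Classical in
/-- **One block is hard on average.** -/
theorem blockHard (w lam c : ℕ) (hw : 1 ≤ w) (hc : 1 ≤ c) (hn : n < 2 ^ lam)
    (hbig : 2 ^ 59 * (lam + 1) ^ 8 * w ^ 8 * c ≤ n) :
    ∃ (Pt : Type) (_ : Fintype Pt) (_ : Nonempty Pt) (W : Pt → Finset (Fin n ⊕ Fin n)),
      (∀ p, (W p).card < n) ∧ BlockHard (2 ^ w / (8 * c)) (1 / (2 * c))
        (fun p => univ.filter fun e : Fin n × Fin n => Sum.inl e.1 ∉ W p ∧ Sum.inr e.2 ∉ W p)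
        (fun σ : Equiv.Perm (Fin n) => univ.filter fun e : Fin n × Fin n => σ e.1 ≠ e.2) := by
  obtain ⟨Pt, i1, i2, W, hW, H⟩ := match_avg (n := n) w lam c hw hc hn hbig
  refine ⟨Pt, i1, i2, W, hW, ?_⟩
  intro B hB L hL hlen g hg τ
  have hleaf : ∀ b ∈ B, ∃ T : Finset (Fin n × Fin n), T.card ≤ 1 ∧ LeafOnR T b := by
    intro b hb
    rcases hB b hb with ⟨c', rfl⟩ | ⟨v, c', d', hcd, h1, h2⟩
    · exact ⟨∅, by simp, fun x x' _ => le_rfl⟩
    · refine ⟨{v}, by simp, fun x x' hx => ?_⟩
      by_cases hv : v ∈ x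
      · rw [h1 x hv, h1 x' (hx v (by simp) hv)]
      · rw [h2 x hv]
        by_cases hv' : v ∈ x'
        · rw [h1 x' hv']; exact hcd
        · rw [h2 x' hv']
  set yes : Pt → Set (Fin n × Fin n) := fun p => {e | Sum.inl e.1 ∉ W p ∧ Sum.inr e.2 ∉ W p}
    with hyes
  set no : Equiv.Perm (Fin n) → Set (Fin n × Fin n) := fun σ => {e | σ e.1 ≠ e.2} with hno
  have hyes' : ∀ p, ((univ.filter fun e : Fin n × Fin n =>
      Sum.inl e.1 ∉ W p ∧ Sum.inr e.2 ∉ W p : Finset (Fin n × Fin n)) : Set (Fin n × Fin n)) =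
      yes p := by
    intro p; ext e; simp [hyes]
  have hno' : ∀ σ : Equiv.Perm (Fin n), ((univ.filter fun e : Fin n × Fin n =>
      σ e.1 ≠ e.2 : Finset (Fin n × Fin n)) : Set (Fin n × Fin n)) = no σ := by
    intro σ; ext e; simp [hno]
  simp only [hyes', hno']
  obtain ⟨θ, hθ⟩ := exists_theta (univ.image (fun p => g (yes p)) ∪ univ.image (fun σ => g (no σ))) τ
  have hθy : ∀ p, θ ≤ -g (yes p) ↔ g (yes p) < τ := fun p =>
    hθ _ (Finset.mem_union_left _ (Finset.mem_image_of_mem _ (mem_univ _)))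
  have hθn : ∀ σ, θ ≤ -g (no σ) ↔ g (no σ) < τ := fun σ =>
    hθ _ (Finset.mem_union_right _ (Finset.mem_image_of_mem _ (mem_univ _)))
  have h := H {f | ∃ b ∈ B, f = fun Z => - b Zᶜ} (by
      rintro _ ⟨b, hb, rfl⟩
      obtain ⟨T, hT, h⟩ := hleaf b hb
      exact ⟨T, hT, h.dual⟩) _ hL.dual (fun Z => - g Zᶜ) (by
      rcases hg with h | h
      · exact Or.inl ⟨g, h, rfl⟩
      · exact Or.inr (List.mem_map.mpr ⟨g, h, rfl⟩)) θ (by
      rw [List.length_map]
      exact (Nat.mul_le_mul_left _ hlen).trans (Nat.mul_div_le _ _))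
  have hc1 : ∀ σ : Equiv.Perm (Fin n), ({e : Fin n × Fin n | σ e.1 = e.2}ᶜ : Set _) = no σ := by
    intro σ
    ext e
    simp [hno]
  have hc2 : ∀ p : Pt, ({e : Fin n × Fin n | Sum.inl e.1 ∈ W p ∨ Sum.inr e.2 ∈ W p}ᶜ : Set _) =
      yes p := by
    intro p
    ext e
    simp [hyes]
  simp only [hc1, hc2, hθy, hθn] at h
  have s1 := Finset.card_filter_add_card_filter_not (s := (univ : Finset (Equiv.Perm (Fin n))))
    (fun σ => τ ≤ g (no σ))
  have s2 := Finset.card_filter_add_card_filter_not (s := (univ : Finset Pt))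
    (fun p => τ ≤ g (yes p))
  simp only [not_le] at s1 s2
  rw [Finset.card_univ] at s1 s2
  set a := (univ.filter fun p : Pt => τ ≤ g (yes p)).card with ha
  set a' := (univ.filter fun p : Pt => g (yes p) < τ).card with ha'
  set b := (univ.filter fun σ : Equiv.Perm (Fin n) => τ ≤ g (no σ)).card with hb
  set b' := (univ.filter fun σ : Equiv.Perm (Fin n) => g (no σ) < τ).card with hb'
  set P := Fintype.card Pt with hP
  set Q := Fintype.card (Equiv.Perm (Fin n)) with hQ
  have hPpos : (0:ℝ) < P := by rw [hP]; exact_mod_cast Fintype.card_pos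
  have hQpos : (0:ℝ) < Q := by rw [hQ]; exact_mod_cast Fintype.card_pos
  have hcpos : (0:ℝ) < c := by exact_mod_cast hc
  have hR : (b' : ℝ) * P * (2 * c) ≤ a' * Q * (2 * c) + P * Q := by exact_mod_cast h
  have s1' : (b : ℝ) + b' = Q := by exact_mod_cast s1
  have s2' : (a : ℝ) + a' = P := by exact_mod_cast s2
  have hb2 : (b' : ℝ) = Q - b := by linarith
  have ha2 : (a' : ℝ) = P - a := by linarith
  rw [hb2, ha2] at hR
  have hmain : (a : ℝ) * Q * (2 * c) ≤ b * P * (2 * c) + P * Q := by nlinarith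
  rw [div_le_iff₀ hPpos]
  have e1 : ((b : ℝ) / Q + 1 / (2 * c)) * P = (b * P * (2 * c) + P * Q) / (Q * (2 * c)) := by
    field_simp
  rw [e1, le_div_iff₀ (by positivity)]
  calc (a : ℝ) * (Q * (2 * c)) = a * Q * (2 * c) := by ring
    _ ≤ _ := hmain

end block

/-- The instance is infeasible in the block. -/
theorem yes_infeasible {n : ℕ} (W : Finset (Fin n ⊕ Fin n)) (hW : W.card < n)
    (X : Set (Fin n × Fin n)) (hX : X = {e | Sum.inl e.1 ∉ W ∧ Sum.inr e.2 ∉ W}) : ¬ BF n X := by
  rw [hX]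
  exact BF_cover W hW

open Classical in
/-- **Real circuits with few arbitrary gates: the average case.** -/
theorem avg_main (d c M : ℕ) (hd : 1 ≤ d) (hc : 1 ≤ c) (hM : 1 ≤ M) :
    ∃ (m N : ℕ) (A : Matrix (Fin m) (Fin N) ℝ), N = M * (2 ^ 120 * (c * d) ^ 9) ^ 2 ∧
      m ≤ 6 * N ∧ (∀ i j, A i j = -1 ∨ A i j = 0 ∨ A i j = 1) ∧
      ∃ (Λ : Type) (_ : Fintype Λ) (_ : Nonempty Λ) (b : Λ → Fin m → ℝ), (∀ l, Small (b l)) ∧
      ∀ (C : RealCircuit (Fin m)) (o : Fin C.s) (τ : ℝ),
        8 * c * (C.s + ∑ i ∈ C.free, C.w i) ≤ 2 ^ d →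
        ((univ.filter fun l => (C.val (b l) o < τ ↔ ∃ x : Fin N → ℝ, b l ≤ A *ᵥ x)).card : ℝ) ≤
          (1 / 2 + ((∏ i ∈ C.free, (C.w i + 1) : ℕ) : ℝ) / (2 * M) + 1 / (4 * c)) *
            Fintype.card Λ := by
  have hcd1 : 1 ≤ c * d := Nat.mul_pos hc hd
  obtain ⟨lam, h1, h2⟩ := exists_size (c * d) hcd1
  set n := 2 ^ 120 * (c * d) ^ 9 with hn
  have hbig : 2 ^ 59 * (lam + 1) ^ 8 * d ^ 8 * c ≤ n := by
    refine le_trans ?_ h2
    calc 2 ^ 59 * (lam + 1) ^ 8 * d ^ 8 * c ≤ 2 ^ 59 * (lam + 1) ^ 8 * d ^ 8 * c ^ 8 :=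
          Nat.mul_le_mul_left _ (Nat.le_self_pow (by norm_num) c)
      _ = _ := by ring
  have hn1 : 1 ≤ n := by rw [hn]; exact Nat.one_le_iff_ne_zero.2 (by positivity)
  obtain ⟨Pt, i1, i2, W, hW, HB⟩ := blockHard (n := n) d lam c hd hc h1 hbig
  set sp : Pt → Finset (Fin n × Fin n) := fun p =>
    univ.filter fun e : Fin n × Fin n => Sum.inl e.1 ∉ W p ∧ Sum.inr e.2 ∉ W p with hsp
  set sn : Equiv.Perm (Fin n) → Finset (Fin n × Fin n) := fun σ =>
    univ.filter fun e : Fin n × Fin n => σ e.1 ≠ e.2 with hsn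
  let e : Fin (Fintype.card (Rw M n)) ≃ Rw M n := (Fintype.equivFin (Rw M n)).symm
  have hcard : Fintype.card (Fin M × (Fin n × Fin n)) = M * n ^ 2 := by
    simp only [Fintype.card_prod, Fintype.card_fin]
    ring
  let cc : Fin (M * n ^ 2) ≃ (Fin M × (Fin n × Fin n)) :=
    (Fintype.equivFinOfCardEq hcard).symm
  let Lb := Fin M × (Fin M → Equiv.Perm (Fin n)) × Pt
  have : Nonempty (Fin M) := ⟨⟨0, hM⟩⟩
  let loc : Fin M × (Fin n × Fin n) → Option (Fin M × (Fin n × Fin n)) := some
  let xx : Bool × Lb → Fin M × (Fin n × Fin n) → Bool := fun l =>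
    if l.1 = true then yesD loc sp sn l.2 else noD loc sn l.2
  -- solvability of the instances
  have hEs : ∀ (y : Fin M → Set (Fin n × Fin n)) (J : Fin M),
      {e : Fin n × Fin n | Es loc y (J, e) = true} = y J := by
    intro y J
    ext e
    simp [Es, loc]
  have hyes : ∀ l : Lb, ¬ ∀ J, BF n {e | yesD loc sp sn l (J, e) = true} := by
    intro l h
    have h3 := h l.1
    rw [yesD, hEs, Function.update_self] at h3
    refine yes_infeasible (W l.2.2) (hW _) _ ?_ h3
    ext e
    simp [hsp]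
  have hno : ∀ l : Lb, ∀ J, BF n {e | noD loc sn l (J, e) = true} := by
    intro l J
    rw [noD, hEs, stS]
    split_ifs
    · refine BF_perm (l.2.1 J) _ fun e he => ?_
      simpa [hsn] using he
    · exact BF_perm 1 _ (fun e he => absurd he (Set.notMem_empty e))
  have hfeas : ∀ x : Fin M × (Fin n × Fin n) → Bool,
      (∃ z : Fin (M * n ^ 2) → ℝ, (fun i => rhs x (e i)) ≤
        (Matrix.of fun i j => Mtx M n (e i) (cc j)) *ᵥ z) ↔
        ∀ J, BF n {e | x (J, e) = true} := by
    intro x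
    rw [← feas_iff]
    constructor
    · rintro ⟨z, hz⟩
      refine ⟨fun p => z (cc.symm p), fun i => ?_⟩
      have h3 : rhs x (e (e.symm i)) ≤
          ((Matrix.of fun i j => Mtx M n (e i) (cc j)) *ᵥ z) (e.symm i) := hz (e.symm i)
      rw [Equiv.apply_symm_apply] at h3
      refine h3.trans (le_of_eq ?_)
      show ∑ j, Mtx M n (e (e.symm i)) (cc j) * z j = _
      rw [← Equiv.sum_comp cc, Equiv.apply_symm_apply]
      simp
    · rintro ⟨y, hy⟩
      refine ⟨fun j => y (cc j), fun i => ?_⟩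
      refine (hy (e i)).trans (le_of_eq ?_)
      show _ = ∑ j, Mtx M n (e i) (cc j) * y (cc j)
      rw [← Equiv.sum_comp cc]
  refine ⟨Fintype.card (Rw M n), M * n ^ 2, Matrix.of fun i j => Mtx M n (e i) (cc j), rfl, ?_,
    fun i j => Mtx_values M n _ _, Bool × Lb, inferInstance, inferInstance,
    fun l i => rhs (xx l) (e i), fun l i => rhs_values _ _, ?_⟩
  · rw [card_Rw]
    have : M * n ≤ M * n ^ 2 := Nat.mul_le_mul_left _ (by nlinarith)
    have e1 : M * (n * n) = M * n ^ 2 := by ring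
    rw [e1]
    omega
  intro C o τ hsize
  -- the circuit as a function of the bits
  let co : Rw M n → Option (Fin M × (Fin n × Fin n)) :=
    Sum.elim (fun _ => none) (Sum.elim (fun q => some q) (fun _ => none))
  let ct : Rw M n → ℝ := Sum.elim (fun _ => 0) (Sum.elim (fun _ => 0)
    (Sum.elim (fun _ => 1) (fun _ => -1)))
  let e0 : Fin M × (Fin n × Fin n) := (⟨0, hM⟩, (⟨0, hn1⟩, ⟨0, hn1⟩))
  have hrhs : ∀ (x : Fin M × (Fin n × Fin n) → Bool) r,
      rhs x r = (co r).elim (ct r) (fun q => bit x q - 1) := by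
    intro x r
    rcases r with q | q | q | q <;> rfl
  let cv : (i : Fin C.s) → (j : Fin (C.w i)) → ℝ → ℝ := fun i j t =>
    Sum.elim (fun r => (co (e r)).elim (ct (e r)) (fun _ => t - 1)) (fun _ => t) (C.arg i j)
  have hcv : ∀ i j (z z' : ℝ), z ≤ z' → cv i j z ≤ cv i j z' := by
    intro i j z z' hz
    simp only [cv]
    rcases C.arg i j with r | k
    · simp only [Sum.elim_inl]
      rcases co (e r) with _ | q
      · exact le_rfl
      · simp only [Option.elim_some]
        linarith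
    · exact hz
  have hchain := avg_chain (M := M) (T := C.free) (w := C.w) (loc := loc)
    (S := 2 ^ d / (8 * c)) (ε := 1 / (2 * c)) (sp := sp) (sn := sn)
    (a := fun i j => Sum.elim (fun r => Sum.inl ((co (e r)).getD e0)) (fun k => Sum.inr k)
      (C.arg i j))
    (op := fun i z => C.op i (fun j => cv i j (z j)))
    (θ := fun i j => Sum.elim (fun r => C.θ i j + 1) (fun _ => C.θ i j) (C.arg i j))
    (val := fun x => C.val (fun i => rhs x (e i))) HB hM ?_ ?_ ?_ ?_ ?_ o τ
  · -- counting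
    have hL : (0:ℝ) < Fintype.card Lb := by exact_mod_cast Fintype.card_pos
    have hMR : (0:ℝ) < M := by exact_mod_cast hM
    have hcR : (0:ℝ) < c := by exact_mod_cast hc
    set κ : ℝ := ((∏ i ∈ C.free, (C.w i + 1) : ℕ) : ℝ) with hκ
    set Yc := (univ.filter fun l : Lb =>
      τ ≤ C.val (fun i => rhs (yesD loc sp sn l) (e i)) o).card with hYc
    set Nc := (univ.filter fun l : Lb =>
      τ ≤ C.val (fun i => rhs (noD loc sn l) (e i)) o).card with hNc
    have hch : (Yc : ℝ) / Fintype.card Lb ≤ (Nc : ℝ) / Fintype.card Lb + κ / M + 1 / (2 * c) :=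
      hchain
    have hsplit : ((univ.filter fun l : Bool × Lb =>
        (C.val (fun i => rhs (xx l) (e i)) o < τ ↔ ∃ x : Fin (M * n ^ 2) → ℝ,
          (fun i => rhs (xx l) (e i)) ≤ (Matrix.of fun i j => Mtx M n (e i) (cc j)) *ᵥ x)).card) =
        Yc + (univ.filter fun l : Lb =>
          C.val (fun i => rhs (noD loc sn l) (e i)) o < τ).card := by
      rw [Finset.card_filter, Fintype.sum_prod_type, Fintype.sum_bool, hYc, Finset.card_filter,
        Finset.card_filter]
      congr 1
      · refine Finset.sum_congr rfl fun l _ => ?_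
        have h3 : xx (true, l) = yesD loc sp sn l := if_pos rfl
        rw [h3]
        refine if_congr ?_ rfl rfl
        rw [hfeas, iff_false_right (hyes l), not_lt]
      · refine Finset.sum_congr rfl fun l _ => ?_
        have h3 : xx (false, l) = noD loc sn l := if_neg Bool.false_ne_true
        rw [h3]
        refine if_congr ?_ rfl rfl
        rw [hfeas, iff_true_right (hno l)]
    have s1 := Finset.card_filter_add_card_filter_not (s := (univ : Finset Lb))
      (fun l => τ ≤ C.val (fun i => rhs (noD loc sn l) (e i)) o)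
    simp only [not_le] at s1
    rw [Finset.card_univ] at s1
    have s1' : (Nc : ℝ) + ((univ.filter fun l : Lb =>
          C.val (fun i => rhs (noD loc sn l) (e i)) o < τ).card : ℝ) = Fintype.card Lb := by
      exact_mod_cast s1
    rw [hsplit]
    push_cast
    have hcB : (Fintype.card (Bool × Lb) : ℝ) = 2 * Fintype.card Lb := by
      rw [Fintype.card_prod, Fintype.card_bool]
      push_cast
      ring
    rw [hcB]
    rw [div_le_iff₀ hL] at hch
    have e2 : ((Nc : ℝ) / Fintype.card Lb + κ / M + 1 / (2 * c)) * Fintype.card Lb =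
        Nc + (κ / M + 1 / (2 * c)) * Fintype.card Lb := by
      field_simp
      ring
    rw [e2] at hch
    have e3 : (1 / 2 + κ / (2 * M) + 1 / (4 * c)) * (2 * (Fintype.card Lb : ℝ)) =
        Fintype.card Lb + (κ / M + 1 / (2 * c)) * Fintype.card Lb := by
      field_simp
      ring
    rw [e3]
    linarith
  · intro i j k hk
    rcases h : C.arg i j with r | k'
    · rw [h] at hk
      simp at hk
    · rw [h] at hk
      simp only [Sum.elim_inr, Sum.inr.injEq] at hk
      rw [← hk]
      exact C.before i j k' h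
  · intro i hi
    exact ⟨(C.mono i hi).1, fun z z' hz => (C.mono i hi).2 (fun j => hcv i j _ _ (hz j))⟩
  · intro i hi z z' hz
    apply C.bits i hi
    intro j
    have := hz j
    simp only [cv]
    rcases hm : C.arg i j with r | k
    · simp only [hm, Sum.elim_inl] at this ⊢
      rcases co (e r) with _ | q
      · exact Iff.rfl
      · simp only [Option.elim_some]
        constructor
        · intro h
          have := this.mp (by linarith)
          linarith
        · intro h
          have := this.mpr (by linarith)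
          linarith
    · simp only [hm, Sum.elim_inr] at this ⊢
      exact this
  · intro x i
    show C.val (fun i => rhs x (e i)) i = _
    rw [C.val_eq]
    congr 1
    funext j
    simp only [cv]
    rcases C.arg i j with r | k
    · simp only [Sum.elim_inl]
      rw [hrhs]
      rcases co (e r) with _ | q
      · rfl
      · rfl
    · rfl
  · rw [Nat.le_div_iff_mul_le (by omega)]
    linarith

end Pool.Agent.Q140.LPG
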