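import Pool.Agent.TH655.ML.Low

/-!
# Real circuits with monotone gates and few arbitrary gates, for linear feasibility
-/

set_option autoImplicit false

namespace Pool.Agent.Q140.LPG

open Pool.Agent.H560R2 Pool.Agent.TH655.ML Matrix

/-- A real circuit with the inputs `b i`, `i : ι`, and `s` gates. The gate `i` applies the function
`op i` to `w i` arguments, which are inputs or values of gates with smaller numbers. The gates
outside `free` are monotone functions of at most two arguments. The value of a gate `i` in `free`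
may depend in an arbitrary way on the `w i` bits which tell whether the arguments are at least
`θ i j`. -/
structure RealCircuit (ι : Type) where
  /-- the number of gates -/
  s : ℕ
  /-- the gates which need not be monotone -/
  free : Finset (Fin s)
  /-- the number of arguments -/
  w : Fin s → ℕ
  /-- the arguments -/
  arg : ∀ i, Fin (w i) → ι ⊕ Fin s
  /-- the function which is applied at a gate -/
  op : ∀ i, (Fin (w i) → ℝ) → ℝ
  /-- the thresholds -/
  θ : ∀ i, Fin (w i) → ℝ
  before : ∀ i j k, arg i j = Sum.inr k → k < i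
  mono : ∀ i ∉ free, w i ≤ 2 ∧ Monotone (op i)
  bits : ∀ i ∈ free, ∀ z z' : Fin (w i) → ℝ, (∀ j, θ i j ≤ z j ↔ θ i j ≤ z' j) → op i z = op i z'
  /-- the values of the gates -/
  val : (ι → ℝ) → Fin s → ℝ
  val_eq : ∀ b i, val b i = op i fun j => Sum.elim b (val b) (arg i j)

/-- **Monotone real circuits with few arbitrary gates for linear feasibility.** -/
theorem main (d M : ℕ) (hd : 1 ≤ d) (hM : 1 ≤ M) :
    ∃ (m N : ℕ) (A : Matrix (Fin m) (Fin N) ℝ), N = M * (2 ^ 120 * d ^ 9) ^ 2 ∧ m ≤ 6 * N ∧
      (∀ i j, A i j = -1 ∨ A i j = 0 ∨ A i j = 1) ∧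
      ∀ (C : RealCircuit (Fin m)) (o : Fin C.s) (τ : ℝ),
        (∀ b : Fin m → ℝ, Small b → (C.val b o < τ ↔ ∃ x : Fin N → ℝ, b ≤ A *ᵥ x)) →
        ∏ i ∈ C.free, (C.w i + 1) ≤ M → 2 ^ d ≤ C.s + ∑ i ∈ C.free, C.w i := by
  classical
  obtain ⟨lam, h1, h2⟩ := exists_size d hd
  set n := 2 ^ 120 * d ^ 9 with hn
  have hn1 : 1 ≤ n := by rw [hn]; exact Nat.one_le_iff_ne_zero.2 (by positivity)
  let e : Fin (Fintype.card (Rw M n)) ≃ Rw M n := (Fintype.equivFin (Rw M n)).symm
  have hc : Fintype.card (Fin M × (Fin n × Fin n)) = M * n ^ 2 := by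
    simp only [Fintype.card_prod, Fintype.card_fin]
    ring
  let c : Fin (M * n ^ 2) ≃ (Fin M × (Fin n × Fin n)) :=
    (Fintype.equivFinOfCardEq hc).symm
  refine ⟨Fintype.card (Rw M n), M * n ^ 2, fun i j => Mtx M n (e i) (c j), rfl, ?_,
    fun i j => Mtx_values M n _ _, ?_⟩
  · rw [card_Rw]
    have : M * n ≤ M * n ^ 2 := Nat.mul_le_mul_left _ (by nlinarith)
    have e1 : M * (n * n) = M * n ^ 2 := by ring
    rw [e1]
    omega
  · intro C o τ hans hprod
    by_contra hsize
    push Not at hsize
    refine absurd hprod (not_le.2 ?_)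
    refine lp_real (M := M) (n := n) (T := C.free) (w := C.w)
      (a := fun i j => (C.arg i j).map e id) (op := C.op) (θ := C.θ)
      (val := fun b => C.val (b ∘ e)) d lam hM hd h1 h2 ?_ C.mono C.bits ?_ o τ ?_ hsize
    · intro i j k hk
      refine C.before i j k ?_
      rcases h : C.arg i j with r | k'
      · rw [h] at hk
        cases hk
      · rw [h, Sum.map_inr, id_eq] at hk
        exact congrArg Sum.inr (Sum.inr.inj hk)
    · intro b i
      show C.val (b ∘ e) i = _
      rw [C.val_eq]
      congr 1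
      funext j
      rcases C.arg i j with r | k' <;> rfl
    · intro b hb
      rw [← not_lt, hans (b ∘ e) (fun i => hb (e i))]
      refine not_congr ?_
      constructor
      · rintro ⟨x, hx⟩
        refine ⟨fun p => x (c.symm p), fun i => ?_⟩
        have h3 := hx (e.symm i)
        rw [Function.comp_apply, Equiv.apply_symm_apply] at h3
        refine h3.trans (le_of_eq ?_)
        show ∑ j, Mtx M n (e (e.symm i)) (c j) * x j = _
        rw [← Equiv.sum_comp c, Equiv.apply_symm_apply]
        simp
      · rintro ⟨y, hy⟩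
        refine ⟨fun j => y (c j), fun i => ?_⟩
        refine (hy (e i)).trans (le_of_eq ?_)
        show _ = ∑ j, Mtx M n (e i) (c j) * y (c j)
        rw [← Equiv.sum_comp c]

end Pool.Agent.Q140.LPG
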